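import Mathlib
import Pool.Agent.R649.GPQ

/-! The groups `G_{1,m}` and `G_{m,1}`, `m ≥ 2`, have unbounded retreat depth for the walk or switch
generating set `S_1`. -/

namespace Pool.Agent.Results.MP_6c6968_al.UnboundedRetreatPQ

open Pool.Agent.R649 Pool.Agent.R649.GPQ

theorem result (p q : ℕ+) (h : (p = 1 ∧ 2 ≤ q) ∨ (q = 1 ∧ 2 ≤ p)) :
    ¬ BoundedRetreatDepth (S1 p q) ∧
      ∀ n : ℕ, ∃ g : GG p q, n ≤ 2 * retreatDepth (S1 p q) g + 16 ∧
        wordLength (S1 p q) g ≤ ((max p q : ℕ+) + 3) * n + 1 := by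
  rcases h with ⟨rfl, h⟩ | ⟨rfl, h⟩
  · have h2 : 2 ≤ (q : ℕ) := by exact_mod_cast h
    have h3 := lin_1m q h2
    refine ⟨not_bounded_of_lin h3, ?_⟩
    rw [max_eq_right (PNat.one_le q)]
    exact h3
  · have h2 : 2 ≤ (p : ℕ) := by exact_mod_cast h
    have h3 := lin_m1 p h2
    refine ⟨not_bounded_of_lin h3, ?_⟩
    rw [max_eq_left (PNat.one_le p)]
    exact h3

end Pool.Agent.Results.MP_6c6968_al.UnboundedRetreatPQ
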